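import Mathlib
import Pool.Agent.H17.FnTop

set_option autoImplicit false

namespace Pool.Agent.Results.MP_43be50_gt.AllDiffer
open Set Filter Topology TopologicalSpace Pool.Agent.H17.FnTop

/-- Topology on `C(Y, Z)` with subbasis the sets `(K, U)`, `K` in a given class. -/
@[reducible] def setTop (Y Z : Type) [TopologicalSpace Y] [TopologicalSpace Z]
    (P : Set Y → Prop) : TopologicalSpace C(Y, Z) :=
  generateFrom {S | ∃ (K : Set Y) (U : Set Z), P K ∧ IsOpen U ∧ S = {f : C(Y, Z) | f '' K ⊆ U}}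

/-- Topology on `C(Y, Z)` with subbasis the sets `(H, U)`, `H` in a given class. -/
@[reducible] def famTop (Y Z : Type) [TopologicalSpace Y] [TopologicalSpace Z]
    (P : Set (Set Y) → Prop) : TopologicalSpace C(Y, Z) :=
  generateFrom {S | ∃ (H : Set (Set Y)) (U : Set Z), P H ∧ IsOpen U ∧
    S = {f : C(Y, Z) | f ⁻¹' U ∈ H}}

/-- `Z`-compact sets. -/
def ZCompact (Y Z : Type) [TopologicalSpace Y] [TopologicalSpace Z] (K : Set Y) : Prop :=
  @IsCompact Y (generateFrom (OZ Y Z)) K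

/-- Upward closed families of open sets. -/
def Upper (Y : Type) [TopologicalSpace Y] (H : Set (Set Y)) : Prop :=
  (∀ W ∈ H, IsOpen W) ∧ ∀ W ∈ H, ∀ V : Set Y, IsOpen V → W ⊆ V → V ∈ H

/-- Scott open families. -/
def Scott (Y : Type) [TopologicalSpace Y] (H : Set (Set Y)) : Prop :=
  Upper Y H ∧ ∀ 𝒲 : Set (Set Y), (∀ W ∈ 𝒲, IsOpen W) → ⋃₀ 𝒲 ∈ H →
    ∃ 𝒱 ⊆ 𝒲, 𝒱.Finite ∧ ⋃₀ 𝒱 ∈ H

/-- Strong Scott open families. -/
def StrongScott (Y : Type) [TopologicalSpace Y] (H : Set (Set Y)) : Prop :=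
  Upper Y H ∧ ∀ 𝒲 : Set (Set Y), (∀ W ∈ 𝒲, IsOpen W) → ⋃₀ 𝒲 = univ →
    ∃ 𝒱 ⊆ 𝒲, 𝒱.Finite ∧ ⋃₀ 𝒱 ∈ H

/-- Strong `Z`-Scott open families. -/
def ZStrongScott (Y Z : Type) [TopologicalSpace Y] [TopologicalSpace Z] (H : Set (Set Y)) : Prop :=
  (∀ W ∈ H, IsOpen W) ∧ (∀ W ∈ H, W ∈ OZ Y Z → ∀ V : Set Y, IsOpen V → W ⊆ V → V ∈ H) ∧
    ∀ 𝒲 : Set (Set Y), 𝒲 ⊆ OZ Y Z → ⋃₀ 𝒲 = univ → ∃ 𝒱 ⊆ 𝒲, 𝒱.Finite ∧ ⋃₀ 𝒱 ∈ H

def Y : Type := ℝ ⊕ {A : Set ℝ // A.Countable ∧ A.Infinite}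

instance : TopologicalSpace Y where
  IsOpen U := ∀ A, Sum.inr A ∈ U → {x | x ∈ A.1 ∧ Sum.inl x ∉ U}.Finite
  isOpen_univ := fun _ _ => finite_empty.subset fun _ h => h.2 trivial
  isOpen_inter := fun U V hU hV A h => ((hU A h.1).union (hV A h.2)).subset fun x hx => by
    by_cases h1 : Sum.inl x ∈ U
    · exact Or.inr ⟨hx.1, fun h2 => hx.2 ⟨h1, h2⟩⟩
    · exact Or.inl ⟨hx.1, h1⟩
  isOpen_sUnion := fun S hS A ⟨U, hU, h⟩ => (hS U hU A h).subset fun x hx =>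
    ⟨hx.1, fun h1 => hx.2 ⟨U, hU, h1⟩⟩

theorem cl_pt (x : ℝ) : IsClopen ({Sum.inl x}ᶜ : Set Y) :=
  ⟨isClosed_compl_iff.2 fun _ h => (by cases h), fun _ _ => (finite_singleton x).subset fun y hy => by
    have := not_not.1 hy.2
    cases this; rfl⟩

theorem sub_inf {S : Set ℝ} (h : S.Infinite) : ∃ A ⊆ S, A.Countable ∧ A.Infinite :=
  ⟨range fun n => (h.natEmbedding S n : ℝ), by rintro _ ⟨n, rfl⟩; exact (h.natEmbedding S n).2,
    countable_range _, infinite_range_of_injective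
      (Subtype.val_injective.comp (h.natEmbedding S).injective)⟩

theorem clopen_cof {C : Set Y} (hC : IsClopen C) {A : {A : Set ℝ // A.Countable ∧ A.Infinite}}
    (hA : Sum.inr A ∈ C) : Cᶜ.Finite := by
  have key : ∀ D : Set Y, IsOpen D → ∀ B : {A : Set ℝ // A.Countable ∧ A.Infinite},
      Sum.inr B ∈ D → ∀ S ⊆ B.1, S.Infinite → ∃ x ∈ S, Sum.inl x ∈ D := by
    intro D hD B hB S hS hi
    obtain ⟨x, hx, hx'⟩ := hi.exists_notMem_finite (hD B hB)
    exact ⟨x, hx, not_not.1 fun h => hx' ⟨hS hx, h⟩⟩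
  have h1 : {x : ℝ | Sum.inl x ∉ C}.Finite := by
    by_contra hi
    obtain ⟨S, hS, hc, hS'⟩ := sub_inf hi
    have hA' : (A.1 \ {x | x ∈ A.1 ∧ Sum.inl x ∉ C}).Infinite := A.2.2.sdiff (hC.isOpen A hA)
    by_cases hB : (Sum.inr ⟨A.1 ∪ S, A.2.1.union hc, A.2.2.mono subset_union_left⟩ : Y) ∈ C
    · obtain ⟨x, hx, hx'⟩ := key C hC.isOpen _ hB S subset_union_right hS'
      exact hS hx hx'
    · obtain ⟨x, hx, hx'⟩ := key Cᶜ hC.compl.isOpen _ hB _
        (sdiff_subset.trans subset_union_left) hA'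
      exact hx.2 ⟨hx.1, hx'⟩
  refine (h1.image Sum.inl).subset ?_
  rintro (x | B) hy
  · exact ⟨x, hy, rfl⟩
  · obtain ⟨x, hx, hx'⟩ := key Cᶜ hC.compl.isOpen B hy _ sdiff_subset (B.2.2.sdiff h1)
    exact absurd hx' hx.2

theorem fin_cover (𝒲 : Set (Set Y)) (h : 𝒲 ⊆ OZ Y Bool) (hU : ⋃₀ 𝒲 = univ) :
    ∃ 𝒱 ⊆ 𝒲, 𝒱.Finite ∧ ⋃₀ 𝒱 = univ := by
  obtain ⟨A, -, hA⟩ := sub_inf (infinite_univ (α := ℝ))
  obtain ⟨W, hW, hA'⟩ := hU.ge (mem_univ (Sum.inr ⟨A, hA⟩ : Y))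
  have hf := clopen_cof (OZ_clopen (h hW)) hA'
  choose g hg hg' using fun y : Y => hU.ge (mem_univ y)
  refine ⟨insert W (g '' Wᶜ), ?_, (hf.image g).insert W, eq_univ_of_forall fun y => ?_⟩
  · rintro _ (rfl | ⟨y, -, rfl⟩)
    · exact hW
    · exact hg y
  · by_cases hy : y ∈ W
    · exact ⟨W, Or.inl rfl, hy⟩
    · exact ⟨g y, Or.inr ⟨y, hy, rfl⟩, hg' y⟩

def nb : Y → Set Y
  | Sum.inl x => {Sum.inl x}
  | Sum.inr A => insert (Sum.inr A) (Sum.inl '' A.1)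

theorem nb_open (y : Y) : IsOpen (nb y) := by
  rcases y with x | A
  · intro B h; cases h
  · rintro B (h | ⟨_, _, h⟩)
    · cases h
      exact finite_empty.subset fun x hx => hx.2 (Or.inr ⟨x, hx.1, rfl⟩)
    · cases h

theorem nb_mem (y : Y) : y ∈ nb y := by
  rcases y with x | A
  · rfl
  · exact Or.inl rfl

theorem nb_ct (y : Y) : (nb y).Countable := by
  rcases y with x | A
  · exact countable_singleton _
  · exact (A.2.1.image _).insert _

theorem small {𝒱 : Set (Set Y)} (h : 𝒱 ⊆ range nb) (hf : 𝒱.Finite) :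
    {x : ℝ | Sum.inl x ∈ ⋃₀ 𝒱}.Countable := by
  have : (⋃₀ 𝒱).Countable := hf.countable.sUnion fun V hV => by
    obtain ⟨y, rfl⟩ := h hV; exact nb_ct y
  exact this.preimage Sum.inl_injective

noncomputable def c : C(Y, Bool) := fn univ isClopen_univ
noncomputable def hx (x : ℝ) : C(Y, Bool) := fn _ (cl_pt x)

theorem not_open (G : Set (Set C(Y, Bool)))
    (hG : ∀ S ∈ G, c ∈ S → {x | hx x ∉ S}.Countable) : ¬ IsOpen[generateFrom G] {c} := by
  have key : ∀ W, IsOpen[generateFrom G] W → c ∈ W → {x | hx x ∉ W}.Countable := by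
    intro W hW
    induction hW with
    | basic S hS => exact hG S hS
    | univ => exact fun _ => countable_empty.mono fun _ h => h trivial
    | inter S T _ _ h1 h2 =>
      exact fun h => ((h1 h.1).union (h2 h.2)).mono fun x hx => not_and_or.1 hx
    | sUnion S _ ih =>
      rintro ⟨T, hT, h⟩
      exact (ih T hT h).mono fun x hx h' => hx ⟨T, hT, h'⟩
  intro h
  refine not_countable_univ ((key _ h rfl).mono fun x _ e => ?_)
  have h1 : c ⁻¹' {true} = hx x ⁻¹' {true} := by rw [show hx x = c from e]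
  rw [c, hx, fn_pre, fn_pre] at h1
  rcases h1.le (Or.inl ⟨mem_univ (Sum.inl x), rfl⟩) with h | h
  · exact h.1 rfl
  · cases h.2

theorem eq_c (f : C(Y, Bool)) : f ⁻¹' {true} = univ ↔ f = c := by
  constructor
  · intro h
    ext y
    have h1 : f y = true := h.ge (mem_univ y)
    have h2 : y ∈ c ⁻¹' {true} := by rw [c, fn_pre]; exact Or.inl ⟨trivial, rfl⟩
    rw [h1, h2]
  · rintro rfl
    rw [c, fn_pre]
    exact eq_univ_of_forall fun _ => Or.inl ⟨trivial, rfl⟩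

theorem fam_small {H : Set (Set Y)} (hH : Upper Y H)
    (h : univ ∈ H → ∃ 𝒱 ⊆ range nb, 𝒱.Finite ∧ ⋃₀ 𝒱 ∈ H) (U : Set Bool) (hc : c ⁻¹' U ∈ H) :
    {x | hx x ⁻¹' U ∉ H}.Countable := by
  rw [c, fn_pre] at hc
  by_cases ht : true ∈ U
  · obtain ⟨𝒱, h1, h2, h3⟩ := h (hH.2 _ hc _ isOpen_univ (subset_univ _))
    refine (small h1 h2).mono fun x hx' => not_not.1 fun hn => hx' (hH.2 _ h3 _
      ((isOpen_discrete U).preimage (hx x).continuous) fun y hy => ?_)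
    rw [hx, fn_pre]
    exact Or.inl ⟨fun e => hn (by cases e; exact hy), ht⟩
  · refine countable_empty.mono fun x hx' => hx' (hH.2 _ hc _
      ((isOpen_discrete U).preimage (hx x).continuous) ?_)
    simp [ht]

theorem cover : ⋃₀ range nb = univ :=
  eq_univ_of_forall fun y => ⟨nb y, ⟨y, rfl⟩, nb_mem y⟩

theorem open_fam (P : Set (Set Y) → Prop) (hP : P {univ}) : IsOpen[famTop Y Bool P] {c} :=
  isOpen_generateFrom_of_mem ⟨{univ}, {true}, hP, isOpen_discrete _, by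
    ext f; exact (eq_c f).symm⟩

theorem result : ∃ (Y Z : Type) (_ : TopologicalSpace Y) (_ : TopologicalSpace Z),
    setTop Y Z (ZCompact Y Z) ≠ setTop Y Z IsCompact ∧
    t1Z Y Z ≠ famTop Y Z (Scott Y) ∧
    famTop Y Z (ZStrongScott Y Z) ≠ famTop Y Z (StrongScott Y) := by
  have hno : ∀ W ∈ range nb, IsOpen W := by rintro _ ⟨y, rfl⟩; exact nb_open y
  refine ⟨Y, Bool, inferInstance, inferInstance, fun e => ?_, fun e => ?_, fun e => ?_⟩
  · have h1 : IsOpen[setTop Y Bool (ZCompact Y Bool)] {c} :=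
      isOpen_generateFrom_of_mem ⟨univ, {true}, by
        refine @isCompact_generateFrom Y (generateFrom (OZ Y Bool)) _ rfl _ fun P hP hU => ?_
        obtain ⟨𝒱, h1, h2, h3⟩ := fin_cover P hP (univ_subset_iff.1 hU)
        exact ⟨𝒱, h1, h2, h3.ge⟩, isOpen_discrete _, by
        ext f
        rw [mem_singleton_iff, ← eq_c, mem_ofPred_eq, image_subset_iff, univ_subset_iff]⟩
    rw [e] at h1
    refine not_open _ ?_ h1
    rintro _ ⟨K, U, hK, -, rfl⟩ hc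
    obtain ⟨T, -, hT⟩ := hK.elim_nhds_subcover nb fun y _ => (nb_open y).mem_nhds (nb_mem y)
    refine (small (𝒱 := nb '' T) (image_subset_range _ _) (T.finite_toSet.image _)).mono
      fun x hx' => not_not.1 fun hn => hx' (image_subset_iff.2 fun y hy => ?_)
    have h2 : y ∈ c ⁻¹' U := image_subset_iff.1 hc hy
    rw [c, fn_pre] at h2
    rw [hx, fn_pre]
    refine Or.inl ⟨fun e => hn ?_, (h2.resolve_right fun h => h.1 trivial).2⟩
    obtain ⟨z, hz, hyz⟩ := mem_iUnion₂.1 (hT hy)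
    cases e
    exact ⟨nb z, ⟨z, hz, rfl⟩, hyz⟩
  · have h1 : IsOpen[t1Z Y Bool] {c} := open_fam (ZScott Y Bool)
      ⟨by rintro _ rfl; exact isOpen_univ, by rintro _ rfl - V - h; exact univ_subset_iff.1 h,
        fun 𝒲 h1 h2 => fin_cover 𝒲 h1 h2⟩
    rw [e] at h1
    refine not_open _ ?_ h1
    rintro _ ⟨H, U, hH, -, rfl⟩ hc
    exact fam_small hH.1 (fun h => hH.2 _ hno (cover.symm ▸ h)) U hc
  · have h1 := open_fam (ZStrongScott Y Bool)
      ⟨by rintro _ rfl; exact isOpen_univ, by rintro _ rfl - V - h; exact univ_subset_iff.1 h,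
        fun 𝒲 h1 h2 => fin_cover 𝒲 h1 h2⟩
    rw [e] at h1
    refine not_open _ ?_ h1
    rintro _ ⟨H, U, hH, -, rfl⟩ hc
    exact fam_small hH.1 (fun _ => hH.2 _ hno cover) U hc

end Pool.Agent.Results.MP_43be50_gt.AllDiffer
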